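import Pool.Agent.Run7.h192.Met.Bas

/-!
# Piece KIL (project MP_dd21b1_pr of helper146): a bounded number of removals protects `z`
-/

set_option autoImplicit false

open MeasureTheory Filter Topology ENNReal

namespace Run7.h192.Met

open Run7.h146.Met

variable {d : ℕ} {ε : ℝ}

open Classical in
/-- the number of the elements which exist at time `s` in exactly one of the systems -/
noncomputable def dl (ε : ℝ) (S A B : Finset (X d)) (s : ℝ≥0∞) : ℕ :=
  (S.filter fun x => ¬ (s < dt ε A x ↔ s < dt ε B x)).card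

open Classical in
/-- set difference -/
noncomputable def sd (S K : Finset (X d)) : Finset (X d) := S.filter fun x => x ∉ K

lemma mem_sd {S K : Finset (X d)} {x : X d} : x ∈ sd S K ↔ x ∈ S ∧ x ∉ K := by
  classical
  simp [sd]

lemma sd_sub {S K : Finset (X d)} : sd S K ⊆ S := fun _ h => (mem_sd.1 h).1

/-- if there is no contact value in `(s, c)` -/
lemma le_dt_of (hCT : S_CT) (hD : S_DYN) (hε : 0 < ε) {S A : Finset (X d)} (hA : A ⊆ S)
    {s c : ℝ≥0∞} (hno : ∀ p ∈ S, ∀ q ∈ S, p ≠ q → s < ct ε p q → c ≤ ct ε p q) {x : X d}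
    (hx : s < dt ε A x) : c ≤ dt ε A x := by
  by_contra hc
  push Not at hc
  have hxA := mem_of_lt_dt hD hx
  obtain ⟨y, hy, hyx, h1, -⟩ := dt_att hCT hD hε hxA hc.ne_top
  have := hno x (hA hxA) y (hA hy) hyx.symm (by rw [h1]; exact hx)
  rw [h1] at this
  exact absurd hc (not_lt.2 this)

lemma event_iff (hCT : S_CT) (hD : S_DYN) (hε : 0 < ε) {S A : Finset (X d)} (hA : A ⊆ S)
    (hNT : NT ε S) {a b : X d} (ha : a ∈ S) (hb : b ∈ S) (hab : a ≠ b) {s : ℝ≥0∞}
    (hs : s < ct ε a b) (hfin : ct ε a b ≠ ⊤)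
    (hno : ∀ p ∈ S, ∀ q ∈ S, p ≠ q → s < ct ε p q → ct ε a b ≤ ct ε p q) (x : X d) :
    ct ε a b < dt ε A x ↔
      s < dt ε A x ∧ ¬ ((x = a ∨ x = b) ∧ s < dt ε A a ∧ s < dt ε A b) := by
  constructor
  · intro h
    refine ⟨hs.trans h, ?_⟩
    rintro ⟨h1, h2, h3⟩
    have h4 := le_dt_of hCT hD hε hA hno h2
    have h5 := le_dt_of hCT hD hε hA hno h3
    have haA := mem_of_lt_dt hD h2
    have hbA := mem_of_lt_dt hD h3
    rcases h1 with rfl | rfl
    · exact absurd (dt_le_ct hD haA hbA hab.symm h5) (not_le.2 h)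
    · have h6 := dt_le_ct hD hbA haA hab (by rw [ct_symm hCT hε]; exact h4)
      rw [ct_symm hCT hε] at h6
      exact absurd h6 (not_le.2 h)
  · rintro ⟨h1, h2⟩
    have h3 := le_dt_of hCT hD hε hA hno h1
    refine lt_of_le_of_ne h3 fun h4 => h2 ?_
    have hxA := mem_of_lt_dt hD h1
    obtain ⟨y, hy, hyx, h5, h6⟩ := dt_att hCT hD hε hxA (by rw [← h4]; exact hfin)
    have h7 := hNT a ha b hb x (hA hxA) y (hA hy) hab hyx.symm (lt_of_le_of_lt bot_le hs) hfin
      (by rw [h5, ← h4])
    rcases h7 with ⟨rfl, rfl⟩ | ⟨rfl, rfl⟩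
    · exact ⟨Or.inl rfl, h1, by rw [h6]; exact h1⟩
    · exact ⟨Or.inr rfl, by rw [h6]; exact h1, h1⟩

open Classical in
lemma card_event {α : Type*} (S : Finset α) (a b : α) (ha : a ∈ S) (hb : b ∈ S)
    (p q p' q' : α → Prop) (hp : ∀ x, p' x ↔ p x ∧ ¬ ((x = a ∨ x = b) ∧ p a ∧ p b))
    (hq : ∀ x, q' x ↔ q x ∧ ¬ ((x = a ∨ x = b) ∧ q a ∧ q b)) :
    (S.filter fun x => ¬ (p' x ↔ q' x)).card ≤ (S.filter fun x => ¬ (p x ↔ q x)).card := by
  by_cases h1 : p a ∧ p b
  · by_cases h2 : q a ∧ q b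
    · refine Finset.card_le_card fun x hx => ?_
      rw [Finset.mem_filter] at hx ⊢
      refine ⟨hx.1, fun h => hx.2 ?_⟩
      rw [hp, hq, h]
      simp [h1, h2]
    · refine le_trans (Finset.card_le_card (t := (S.filter fun x => ¬ (p x ↔ q x)).image
        (Equiv.swap a b)) fun x hx => ?_) Finset.card_image_le
      rw [Finset.mem_filter] at hx
      rw [Finset.mem_image]
      by_cases hxa : x = a
      · subst hxa
        have h3 : ¬ p' x := by rw [hp]; simp [h1]
        have h4 : q x := by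
          by_contra h5
          exact hx.2 (by rw [hq]; simp [h3, h5])
        have h5 : ¬ q b := fun h => h2 ⟨h4, h⟩
        exact ⟨b, Finset.mem_filter.2 ⟨hb, by simp [h1.2, h5]⟩, Equiv.swap_apply_right _ _⟩
      · by_cases hxb : x = b
        · subst hxb
          have h3 : ¬ p' x := by rw [hp]; simp [h1]
          have h4 : q x := by
            by_contra h5
            exact hx.2 (by rw [hq]; simp [h3, h5])
          have h5 : ¬ q a := fun h => h2 ⟨h, h4⟩
          exact ⟨a, Finset.mem_filter.2 ⟨ha, by simp [h1.1, h5]⟩, Equiv.swap_apply_left _ _⟩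
        · refine ⟨x, Finset.mem_filter.2 ⟨hx.1, fun h => hx.2 ?_⟩,
            Equiv.swap_apply_of_ne_of_ne hxa hxb⟩
          rw [hp, hq, h]
          simp [hxa, hxb]
  · by_cases h2 : q a ∧ q b
    · refine le_trans (Finset.card_le_card (t := (S.filter fun x => ¬ (p x ↔ q x)).image
        (Equiv.swap a b)) fun x hx => ?_) Finset.card_image_le
      rw [Finset.mem_filter] at hx
      rw [Finset.mem_image]
      by_cases hxa : x = a
      · subst hxa
        have h3 : ¬ q' x := by rw [hq]; simp [h2]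
        have h4 : p x := by
          by_contra h5
          exact hx.2 (by rw [hp]; simp [h3, h5])
        have h5 : ¬ p b := fun h => h1 ⟨h4, h⟩
        exact ⟨b, Finset.mem_filter.2 ⟨hb, by simp [h2.2, h5]⟩, Equiv.swap_apply_right _ _⟩
      · by_cases hxb : x = b
        · subst hxb
          have h3 : ¬ q' x := by rw [hq]; simp [h2]
          have h4 : p x := by
            by_contra h5
            exact hx.2 (by rw [hp]; simp [h3, h5])
          have h5 : ¬ p a := fun h => h1 ⟨h, h4⟩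
          exact ⟨a, Finset.mem_filter.2 ⟨ha, by simp [h2.1, h5]⟩, Equiv.swap_apply_left _ _⟩
        · refine ⟨x, Finset.mem_filter.2 ⟨hx.1, fun h => hx.2 ?_⟩,
            Equiv.swap_apply_of_ne_of_ne hxa hxb⟩
          rw [hp, hq, h]
          simp [hxa, hxb]
    · refine Finset.card_le_card fun x hx => ?_
      rw [Finset.mem_filter] at hx ⊢
      refine ⟨hx.1, fun h => hx.2 ?_⟩
      rw [hp, hq, h]
      simp [h1, h2]

/-- the number of discrepancies does not increase -/
lemma dl_anti (hCT : S_CT) (hD : S_DYN) (hε : 0 < ε) {S A B : Finset (X d)} (hA : A ⊆ S)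
    (hB : B ⊆ S) (hNT : NT ε S) {t : ℝ≥0∞} (ht : t ≠ ⊤) :
    ∀ s, s ≤ t → dl ε S A B t ≤ dl ε S A B s := by
  classical
  have key : ∀ (N : ℕ) (s : ℝ≥0∞), s ≤ t → ((S ×ˢ S).filter fun p =>
      p.1 ≠ p.2 ∧ s < ct ε p.1 p.2 ∧ ct ε p.1 p.2 ≤ t).card ≤ N →
      dl ε S A B t ≤ dl ε S A B s := by
    intro N
    induction N with
    | zero =>
      intro s hst hN
      have h0 := Finset.card_eq_zero.1 (Nat.le_zero.1 hN)
      have h1 : ∀ A : Finset (X d), A ⊆ S → ∀ x, (t < dt ε A x ↔ s < dt ε A x) := by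
        intro A hA x
        refine ⟨fun h => lt_of_le_of_lt hst h, fun h => ?_⟩
        by_contra h2
        push Not at h2
        have hxA := mem_of_lt_dt hD h
        obtain ⟨y, hy, hyx, h3, -⟩ := dt_att hCT hD hε hxA (ne_top_of_le_ne_top ht h2)
        have : (x, y) ∈ (S ×ˢ S).filter fun p =>
            p.1 ≠ p.2 ∧ s < ct ε p.1 p.2 ∧ ct ε p.1 p.2 ≤ t :=
          Finset.mem_filter.2 ⟨Finset.mem_product.2 ⟨hA hxA, hA hy⟩, hyx.symm, by
            rw [h3]; exact h, by rw [h3]; exact h2⟩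
        rw [h0] at this
        exact absurd this (Finset.notMem_empty _)
      unfold dl
      simp only [h1 A hA, h1 B hB]
      exact le_rfl
    | succ N ih =>
      intro s hst hN
      rcases ((S ×ˢ S).filter fun p =>
        p.1 ≠ p.2 ∧ s < ct ε p.1 p.2 ∧ ct ε p.1 p.2 ≤ t).eq_empty_or_nonempty with h0 | h0
      · refine ih s hst ?_
        rw [h0]
        simp
      · obtain ⟨⟨a, b⟩, hab, hmin⟩ := Finset.exists_min_image _ (fun p => ct ε p.1 p.2) h0
        rw [Finset.mem_filter, Finset.mem_product] at hab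
        obtain ⟨⟨ha, hb⟩, hne, hs, hct⟩ := hab
        simp only at ha hb hne hs hct hmin
        have hno : ∀ p ∈ S, ∀ q ∈ S, p ≠ q → s < ct ε p q → ct ε a b ≤ ct ε p q := by
          intro p hp q hq hpq h1
          by_cases h2 : ct ε p q ≤ t
          · exact hmin (p, q) (Finset.mem_filter.2 ⟨Finset.mem_product.2 ⟨hp, hq⟩, hpq, h1, h2⟩)
          · exact hct.trans (not_le.1 h2).le
        have hfin : ct ε a b ≠ ⊤ := ne_top_of_le_ne_top ht hct
        have h1 : dl ε S A B (ct ε a b) ≤ dl ε S A B s := by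
          have h2 := card_event S a b ha hb _ _ _ _
            (event_iff hCT hD hε hA hNT ha hb hne hs hfin hno)
            (event_iff hCT hD hε hB hNT ha hb hne hs hfin hno)
          unfold dl
          convert h2
        refine le_trans (ih (ct ε a b) hct ?_) h1
        refine Nat.le_of_lt_succ (lt_of_lt_of_le (Finset.card_lt_card ?_) hN)
        rw [Finset.ssubset_iff_of_subset]
        · refine ⟨(a, b), Finset.mem_filter.2 ⟨Finset.mem_product.2 ⟨ha, hb⟩, hne, hs, hct⟩, ?_⟩
          intro h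
          exact absurd (Finset.mem_filter.1 h).2.2.1 (lt_irrefl _)
        · intro p hp
          rw [Finset.mem_filter] at hp ⊢
          exact ⟨hp.1, hp.2.1, hs.trans hp.2.2.1, hp.2.2.2⟩
  intro s hst
  exact key _ s hst le_rfl

open Classical in
/-- the meteors which meet `z` up to time `u` -/
noncomputable def hts (ε : ℝ) (z : X d) (u : ℝ≥0∞) (S : Finset (X d)) : Finset (X d) :=
  S.filter fun y => ct ε z y ≤ u ∧ ct ε z y ≤ dt ε S y

/-- the properties of the removed set `K` at time `u` -/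
structure KP (ε : ℝ) (z : X d) (S K₀ : Finset (X d)) (M : ℕ) (u : ℝ≥0∞) (K : Finset (X d)) :
    Prop where
  sub0 : K₀ ⊆ K
  sub : K ⊆ S
  near : ∀ y ∈ K, y ∉ K₀ → ct ε z y ≤ u
  safe : ∀ y ∈ S, y ∉ K → ct ε z y ≤ u → dt ε (sd S K) y < ct ε z y
  cnt : (sd K K₀).card + dl ε S S (sd S K) u ≤ 2 * (hts ε z u S).card + M

lemma hts_mono {z : X d} {S : Finset (X d)} {u v : ℝ≥0∞} (h : u ≤ v) :
    hts ε z u S ⊆ hts ε z v S := by
  classical
  intro x hx
  simp only [hts, Finset.mem_filter] at hx ⊢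
  exact ⟨hx.1, hx.2.1.trans h, hx.2.2⟩

lemma KP.mono (hCT : S_CT) (hD : S_DYN) (hε : 0 < ε) {z : X d} {S K₀ K : Finset (X d)} {M : ℕ}
    {u v : ℝ≥0∞} (h : KP ε z S K₀ M u K) (hNT : NT ε S) (huv : u ≤ v) (hv : v ≠ ⊤)
    (hno : ∀ y ∈ S, ct ε z y ≤ v → ct ε z y ≤ u) : KP ε z S K₀ M v K where
  sub0 := h.sub0
  sub := h.sub
  near y h1 h2 := (h.near y h1 h2).trans huv
  safe y h1 h2 h3 := h.safe y h1 h2 (hno y h1 h3)
  cnt := by
    have h1 := h.cnt
    have h2 := dl_anti hCT hD hε (Finset.Subset.refl S) (sd_sub (S := S) (K := K)) hNT hv u huv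
    have h3 := Finset.card_le_card (hts_mono (ε := ε) (z := z) (S := S) huv)
    omega

lemma dl_del (hD : S_DYN) (hDEL : S_DEL) (hε : 0 < ε) {B : Finset (X d)} {y : X d} (hy : y ∈ B)
    {r : ℝ≥0∞} (hr : r < dt ε B y) {x : X d} (hxy : x ≠ y) :
    (r < dt ε B x ↔ r < dt ε (del y B) x) := by
  by_cases hx : x ∈ B
  · have hr' : ENNReal.ofReal r.toReal = r := ENNReal.ofReal_toReal hr.ne_top
    have := hDEL d ε hε B y r.toReal ENNReal.toReal_nonneg hy (by rw [hr']; exact hr) x hx hxy
    rw [hr'] at this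
    exact this
  · rw [dt_notMem hD hx, dt_notMem hD (S := del y B) (fun h => hx (mem_del.1 h).2)]

lemma KP.event (hCT : S_CT) (hD : S_DYN) (hDEL : S_DEL) (hε : 0 < ε) {z : X d}
    {S K₀ K : Finset (X d)} {M : ℕ} {u : ℝ≥0∞} (h : KP ε z S K₀ M u K) (hz : z ∉ S)
    (hNT : NT ε (ins z S)) (hNS : NT ε S) {w : X d} (hw : w ∈ S) (hu : u < ct ε z w)
    (hfin : ct ε z w ≠ ⊤) (hmin : ∀ y ∈ S, u < ct ε z y → ct ε z w ≤ ct ε z y) :
    ∃ K', K ⊆ K' ∧ KP ε z S K₀ M (ct ε z w) K' := by
  classical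
  have hzw : z ≠ w := fun h => hz (h ▸ hw)
  have hpos : 0 < ct ε z w := lt_of_le_of_lt bot_le hu
  -- no pair of `S` has this contact time
  have hne : ∀ A : Finset (X d), A ⊆ S → ∀ x ∈ A, dt ε A x ≠ ct ε z w := by
    intro A hA x hx h1
    obtain ⟨y, hy, hyx, h2, -⟩ := dt_att hCT hD hε hx (by rw [h1]; exact hfin)
    rcases hNT z (mem_ins.2 (Or.inl rfl)) w (mem_ins.2 (Or.inr hw)) x
      (mem_ins.2 (Or.inr (hA hx))) y (mem_ins.2 (Or.inr (hA hy))) hzw hyx.symm hpos hfin
      (by rw [h2, h1]) with ⟨h3, -⟩ | ⟨h3, -⟩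
    · exact hz (h3 ▸ hA hx)
    · exact hz (h3 ▸ hA hy)
  have huniq : ∀ y ∈ S, ct ε z y = ct ε z w → y = w := by
    intro y hy h1
    have hzy : z ≠ y := fun h => hz (h ▸ hy)
    rcases hNT z (mem_ins.2 (Or.inl rfl)) w (mem_ins.2 (Or.inr hw)) z (mem_ins.2 (Or.inl rfl)) y
      (mem_ins.2 (Or.inr hy)) hzw hzy hpos hfin h1.symm with ⟨-, h3⟩ | ⟨h3, -⟩
    · exact h3.symm
    · exact absurd h3 hzy
  have h2 := dl_anti hCT hD hε (Finset.Subset.refl S) (sd_sub (S := S) (K := K)) hNS hfin u hu.le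
  have h3 := Finset.card_le_card (hts_mono (ε := ε) (z := z) (S := S) hu.le)
  have hcnt := h.cnt
  by_cases hc : ct ε z w ≤ dt ε (sd S K) w
  · have hwB : w ∈ sd S K := mem_of_lt_dt hD (lt_of_lt_of_le hpos hc)
    have hwK : w ∉ K := (mem_sd.1 hwB).2
    have hc' : ct ε z w < dt ε (sd S K) w :=
      lt_of_le_of_ne hc (fun h1 => hne _ sd_sub w hwB h1.symm)
    have hB' : sd S (ins w K) = del w (sd S K) := by
      ext x
      rw [mem_sd, mem_del, mem_sd, mem_ins]
      tauto
    have hDELr : ∀ r : ℝ≥0∞, r ≤ ct ε z w → ∀ x, x ≠ w →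
        (r < dt ε (sd S K) x ↔ r < dt ε (sd S (ins w K)) x) := by
      intro r hr x hx
      rw [hB']
      exact dl_del hD hDEL hε hwB (lt_of_le_of_lt hr hc') hx
    have hwB' : dt ε (sd S (ins w K)) w = 0 := by
      apply dt_notMem hD
      rw [hB', mem_del]
      simp
    have hK1 : (sd (ins w K) K₀).card = (sd K K₀).card + 1 := by
      have : sd (ins w K) K₀ = insert w (sd K K₀) := by
        ext x
        rw [mem_sd, mem_ins, Finset.mem_insert, mem_sd]
        constructor
        · rintro ⟨h1 | h1, h4⟩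
          · exact Or.inl h1
          · exact Or.inr ⟨h1, h4⟩
        · rintro (h1 | ⟨h1, h4⟩)
          · exact ⟨Or.inl h1, fun h5 => hwK (h.sub0 (h1 ▸ h5))⟩
          · exact ⟨Or.inr h1, h4⟩
      rw [this, Finset.card_insert_of_notMem]
      rw [mem_sd]
      exact fun h1 => hwK h1.1
    refine ⟨ins w K, fun x hx => mem_ins.2 (Or.inr hx), ⟨fun x hx => mem_ins.2
      (Or.inr (h.sub0 hx)), ?_, ?_, ?_, ?_⟩⟩
    · intro x hx
      rcases mem_ins.1 hx with rfl | h1
      · exact hw
      · exact h.sub h1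
    · intro y hy hy0
      rcases mem_ins.1 hy with rfl | h1
      · exact le_rfl
      · exact (h.near y h1 hy0).trans hu.le
    · intro y hy hyK hyc
      rw [mem_ins, not_or] at hyK
      by_cases h4 : ct ε z y ≤ u
      · have h5 := h.safe y hy hyK.2 h4
        have h6 := hDELr (dt ε (sd S K) y) (h5.le.trans (h4.trans hu.le)) y hyK.1
        have h7 : dt ε (sd S (ins w K)) y ≤ dt ε (sd S K) y := by
          rw [← not_lt, ← h6]
          exact lt_irrefl _
        exact lt_of_le_of_lt h7 h5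
      · exact absurd (huniq y hy (le_antisymm hyc (hmin y hy (not_le.1 h4)))) hyK.1
    · rw [hK1]
      by_cases hS : ct ε z w < dt ε S w
      · have h4 : dl ε S S (sd S (ins w K)) (ct ε z w) ≤ dl ε S S (sd S K) (ct ε z w) + 1 := by
          refine le_trans (Finset.card_le_card (t := insert w (S.filter fun x =>
            ¬ (ct ε z w < dt ε S x ↔ ct ε z w < dt ε (sd S K) x))) ?_)
            (Finset.card_insert_le _ _)
          intro x hx
          rw [Finset.mem_insert]
          by_cases hxw : x = w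
          · exact Or.inl hxw
          · refine Or.inr ?_
            rw [Finset.mem_filter] at hx ⊢
            rw [hDELr _ le_rfl x hxw]
            exact hx
        have h5 : (hts ε z u S).card + 1 ≤ (hts ε z (ct ε z w) S).card := by
          refine Nat.succ_le_of_lt (Finset.card_lt_card ?_)
          rw [Finset.ssubset_iff_of_subset (hts_mono hu.le)]
          refine ⟨w, ?_, ?_⟩
          · simp only [hts, Finset.mem_filter]
            exact ⟨hw, le_rfl, hS.le⟩
          · simp only [hts, Finset.mem_filter, not_and]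
            intro _ h6
            exact absurd hu (not_lt.2 h6)
        omega
      · have h4 : dl ε S S (sd S (ins w K)) (ct ε z w) + 1 ≤ dl ε S S (sd S K) (ct ε z w) := by
          refine Nat.succ_le_of_lt (Finset.card_lt_card ?_)
          rw [Finset.ssubset_iff_of_subset]
          · refine ⟨w, Finset.mem_filter.2 ⟨hw, ?_⟩, ?_⟩
            · simp [hS, hc']
            · rw [Finset.mem_filter, hwB']
              simp [hS]
          · intro x hx
            rw [Finset.mem_filter] at hx ⊢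
            by_cases hxw : x = w
            · exfalso
              rw [hxw, hwB'] at hx
              simp [hS] at hx
            · rw [hDELr _ le_rfl x hxw]
              exact hx
        omega
  · refine ⟨K, Finset.Subset.refl _, ⟨h.sub0, h.sub, fun y h4 h5 => (h.near y h4 h5).trans hu.le,
      ?_, ?_⟩⟩
    · intro y hy hyK hyc
      by_cases h4 : ct ε z y ≤ u
      · exact h.safe y hy hyK h4
      · rw [huniq y hy (le_antisymm hyc (hmin y hy (not_le.1 h4)))]
        exact not_le.1 hc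
    · omega

open Classical in
lemma KP.build (hCT : S_CT) (hD : S_DYN) (hDEL : S_DEL) (hε : 0 < ε) {z : X d}
    {S K₀ : Finset (X d)} {M : ℕ} (hz : z ∉ S) (hNT : NT ε (ins z S)) (hNS : NT ε S) :
    ∀ (N : ℕ) (u : ℝ≥0∞) (K : Finset (X d)), KP ε z S K₀ M u K → u ≠ ⊤ →
      (S.filter fun y => u < ct ε z y ∧ ct ε z y ≠ ⊤).card ≤ N →
      ∃ Kf : ℝ≥0∞ → Finset (X d), Monotone Kf ∧ (∀ v, K ⊆ Kf v) ∧
        ∀ v, u ≤ v → v ≠ ⊤ → KP ε z S K₀ M v (Kf v) := by
  intro N
  induction N with
  | zero =>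
    intro u K h hu hN
    have h0 := Finset.card_eq_zero.1 (Nat.le_zero.1 hN)
    refine ⟨fun _ => K, monotone_const, fun _ => Finset.Subset.refl _, fun v huv hv =>
      h.mono hCT hD hε hNS huv hv fun y hy hyv => ?_⟩
    by_contra h1
    have : y ∈ S.filter fun y => u < ct ε z y ∧ ct ε z y ≠ ⊤ :=
      Finset.mem_filter.2 ⟨hy, not_le.1 h1, ne_top_of_le_ne_top hv hyv⟩
    rw [h0] at this
    exact absurd this (Finset.notMem_empty _)
  | succ N ih =>
    intro u K h hu hN
    rcases (S.filter fun y => u < ct ε z y ∧ ct ε z y ≠ ⊤).eq_empty_or_nonempty with h0 | h0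
    · refine ih u K h hu ?_
      rw [h0]
      simp
    · obtain ⟨w, hw, hmin⟩ := Finset.exists_min_image _ (fun y => ct ε z y) h0
      rw [Finset.mem_filter] at hw
      obtain ⟨hw, huw, hfin⟩ := hw
      have hmin' : ∀ y ∈ S, u < ct ε z y → ct ε z w ≤ ct ε z y := by
        intro y hy h1
        by_cases h2 : ct ε z y = ⊤
        · rw [h2]
          exact le_top
        · exact hmin y (Finset.mem_filter.2 ⟨hy, h1, h2⟩)
      obtain ⟨K', hKK', hK'⟩ := h.event hCT hD hDEL hε hz hNT hNS hw huw hfin hmin'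
      obtain ⟨Kf, hKf1, hKf2, hKf3⟩ := ih (ct ε z w) K' hK' hfin (by
        refine Nat.le_of_lt_succ (lt_of_lt_of_le (Finset.card_lt_card ?_) hN)
        rw [Finset.ssubset_iff_of_subset]
        · refine ⟨w, Finset.mem_filter.2 ⟨hw, huw, hfin⟩, ?_⟩
          intro h
          exact absurd (Finset.mem_filter.1 h).2.1 (lt_irrefl _)
        · intro p hp
          rw [Finset.mem_filter] at hp ⊢
          exact ⟨hp.1, huw.trans hp.2.1, hp.2.2⟩)
      refine ⟨fun v => if v < ct ε z w then K else Kf v, ?_, ?_, ?_⟩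
      · intro v v' hvv'
        by_cases h1 : v' < ct ε z w
        · simp only [if_pos h1, if_pos (lt_of_le_of_lt hvv' h1)]
          exact le_rfl
        · by_cases h2 : v < ct ε z w
          · simp only [if_neg h1, if_pos h2]
            exact hKK'.trans (hKf2 v')
          · simp only [if_neg h1, if_neg h2]
            exact hKf1 hvv'
      · intro v
        by_cases h2 : v < ct ε z w
        · simp only [if_pos h2]
          exact Finset.Subset.refl _
        · simp only [if_neg h2]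
          exact hKK'.trans (hKf2 v)
      · intro v huv hv
        by_cases h2 : v < ct ε z w
        · simp only [if_pos h2]
          refine h.mono hCT hD hε hNS huv hv fun y hy hyv => ?_
          by_contra h3
          exact absurd (hmin' y hy (not_le.1 h3)) (not_le.2 (lt_of_le_of_lt hyv h2))
        · simp only [if_neg h2]
          exact hKf3 v (not_lt.1 h2) hv

/-- Piece KIL. -/
theorem t_KIL : S_CT → S_DYN → S_DEL → S_GH → S_KIL := by
  classical
  intro hCT hD hDEL hGH d ε hε S z hz hz1 hS1 hNT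
  have hNS : NT ε S := by
    intro a ha b hb c hc e he
    exact hNT a (mem_ins.2 (Or.inr ha)) b (mem_ins.2 (Or.inr hb)) c (mem_ins.2 (Or.inr hc)) e
      (mem_ins.2 (Or.inr he))
  set K₀ : Finset (X d) := S.filter fun y => ‖y.1 - z.1‖ ≤ 4 * ε with hK₀
  set M₀ : Finset (X d) := S.filter fun y => ‖y.1 - z.1‖ ≤ 6 * ε with hM₀
  have hKM : K₀ ⊆ M₀ := by
    intro x hx
    rw [hK₀, Finset.mem_filter] at hx
    rw [hM₀, Finset.mem_filter]
    exact ⟨hx.1, by linarith [hx.2]⟩
  have hct0 : ∀ a b : X d, ct ε a b ≤ 0 ↔ ‖a.1 - b.1‖ ≤ 2 * ε := by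
    intro a b
    rw [nonpos_iff_eq_zero]
    exact (hCT d ε hε).2.2.2.2.1 a b
  have hinit : KP ε z S K₀ M₀.card 0 K₀ := by
    refine ⟨Finset.Subset.refl _, Finset.filter_subset _ _, fun y h1 h2 => absurd h1 h2, ?_, ?_⟩
    · intro y hy hyK h0
      exfalso
      rw [hct0, norm_sub_rev] at h0
      exact hyK (Finset.mem_filter.2 ⟨hy, by linarith⟩)
    · have h1 : (sd K₀ K₀).card = 0 := by
        rw [Finset.card_eq_zero, Finset.eq_empty_iff_forall_notMem]
        intro x hx
        rw [mem_sd] at hx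
        exact hx.2 hx.1
      have h2 : dl ε S S (sd S K₀) 0 ≤ M₀.card := by
        refine Finset.card_le_card fun x hx => ?_
        rw [Finset.mem_filter] at hx
        rw [hM₀, Finset.mem_filter]
        refine ⟨hx.1, ?_⟩
        by_contra h3
        push Not at h3
        have hxK : x ∉ K₀ := by
          intro h4
          rw [hK₀, Finset.mem_filter] at h4
          linarith [h4.2]
        refine hx.2 ?_
        rw [← not_le, ← not_le, not_iff_not, dt_le_iff hCT hD hε hx.1 ENNReal.zero_ne_top,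
          dt_le_iff hCT hD hε (mem_sd.2 ⟨hx.1, hxK⟩) ENNReal.zero_ne_top]
        constructor
        · rintro ⟨y, hy, hyx, h4, h5⟩
          have h6 := (hct0 x y).1 h4
          have hyK : y ∉ K₀ := by
            intro h7
            rw [hK₀, Finset.mem_filter] at h7
            have h8 : x.1 - z.1 = (x.1 - y.1) + (y.1 - z.1) := by abel
            have h9 := norm_add_le (x.1 - y.1) (y.1 - z.1)
            rw [← h8] at h9
            linarith [h7.2]
          exact ⟨y, mem_sd.2 ⟨hy, hyK⟩, hyx, h4, h4.trans bot_le⟩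
        · rintro ⟨y, hy, hyx, h4, h5⟩
          exact ⟨y, (mem_sd.1 hy).1, hyx, h4, h4.trans bot_le⟩
      omega
  obtain ⟨Kf, hKf1, -, hKf3⟩ := KP.build hCT hD hDEL hε hz hNT hNS _ 0 K₀ hinit
    ENNReal.zero_ne_top le_rfl
  refine ⟨fun t => Kf (ENNReal.ofReal t), fun t t' h => hKf1 (ENNReal.ofReal_le_ofReal h), ?_⟩
  intro t ht
  have hKP := hKf3 (ENNReal.ofReal t) bot_le ENNReal.ofReal_ne_top
  have hsd : S \ Kf (ENNReal.ofReal t) = sd S (Kf (ENNReal.ofReal t)) := by
    ext x
    rw [mem_sd, Finset.mem_sdiff]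
  refine ⟨hKP.sub, ?_, ?_, ?_⟩
  · intro y hy
    by_cases h1 : y ∈ K₀
    · rw [hK₀, Finset.mem_filter] at h1
      linarith [h1.2]
    · have h2 := hKP.near y hy h1
      have h3 := (hCT d ε hε).2.2.2.2.2.1 z y t ht hz1 (hS1 y (hKP.sub hy)) h2
      rw [norm_sub_rev] at h3
      linarith
  · rw [hsd, hGH d ε hε _ z t ht (fun h => hz (mem_sd.1 h).1)]
    rintro y hy ⟨h1, h2⟩
    rw [mem_sd] at hy
    exact absurd (hKP.safe y hy.1 hy.2 h1) (not_lt.2 h2)
  · have h1 : (Kf (ENNReal.ofReal t)).card ≤ K₀.card +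
        (sd (Kf (ENNReal.ofReal t)) K₀).card := by
      refine le_trans (Finset.card_le_card (t := K₀ ∪ sd (Kf (ENNReal.ofReal t)) K₀) ?_)
        (Finset.card_union_le _ _)
      intro x hx
      rw [Finset.mem_union, mem_sd]
      by_cases h : x ∈ K₀
      · exact Or.inl h
      · exact Or.inr ⟨hx, h⟩
    have h2 := hKP.cnt
    have h3 := Finset.card_le_card hKM
    have h4 : (hts ε z (ENNReal.ofReal t) S).card = (hits ε z t S).card := by
      congr 1
    have h5 : (S.filter fun y => ‖y.1 - z.1‖ ≤ 6 * ε).card = M₀.card := rfl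
    rw [← h4]
    refine le_trans h1 ?_
    refine le_trans (b := M₀.card + (2 * (hts ε z (ENNReal.ofReal t) S).card + M₀.card))
      (by omega) ?_
    have h6 : M₀.card + (2 * (hts ε z (ENNReal.ofReal t) S).card + M₀.card) =
      2 * M₀.card + 2 * (hts ε z (ENNReal.ofReal t) S).card := by ring
    rw [h6, hM₀]

end Run7.h192.Met
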