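import Pool.Agent.Run7.h192.Met.Bas

/-!
# Piece LOCD (project MP_dd21b1_pr of helper146): locality
-/

set_option autoImplicit false

open MeasureTheory Filter Topology ENNReal

namespace Run7.h192.Met

open Run7.h146.Met

variable {d : ℕ} {ε : ℝ}

/-- the time label of the `n`-th element of a chain -/
noncomputable def TL (ε t : ℝ) (w : ℕ → X d) : ℕ → ℝ≥0∞
  | 0 => ENNReal.ofReal t
  | n + 1 => ct ε (w n) (w (n + 1))

/-- chains from `z` with distinct elements and decreasing times at most `t` -/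
structure Pa (ε t : ℝ) (S : Finset (X d)) (z : X d) (n : ℕ) (w : ℕ → X d) : Prop where
  h0 : w 0 = z
  mem : ∀ i < n, w (i + 1) ∈ S
  inj : ∀ i ≤ n, ∀ j ≤ n, w i = w j → i = j
  fst : 0 < n → ct ε (w 0) (w 1) ≤ ENNReal.ofReal t
  dec : ∀ i, i + 1 < n → ct ε (w (i + 1)) (w (i + 2)) < ct ε (w i) (w (i + 1))

lemma Pa.tl_succ {t : ℝ} {S : Finset (X d)} {z : X d} {n : ℕ} {w : ℕ → X d}
    (h : Pa ε t S z n w) : ∀ i, i + 1 ≤ n → TL ε t w (i + 1) ≤ TL ε t w i := by
  intro i hi
  rcases i with _ | i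
  · exact h.fst (by omega)
  · exact (h.dec i (by omega)).le

lemma Pa.tl_anti {t : ℝ} {S : Finset (X d)} {z : X d} {n : ℕ} {w : ℕ → X d}
    (h : Pa ε t S z n w) : ∀ j i, i + j ≤ n → TL ε t w (i + j) ≤ TL ε t w i := by
  intro j
  induction j with
  | zero => intro i _; exact le_rfl
  | succ j ih =>
    intro i hi
    exact (h.tl_succ (i + j) (by omega)).trans (ih i (by omega))

lemma Pa.pos (hCT : S_CT) (hε : 0 < ε) {t : ℝ} {S : Finset (X d)} {z : X d} {n : ℕ}
    {w : ℕ → X d} (h : Pa ε t S z n w) (ht : 0 ≤ t) (hz : ‖z.2‖ = 1) (hS : ∀ y ∈ S, ‖y.2‖ = 1) :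
    ∀ i ≤ n, ∀ r, 0 ≤ r → ENNReal.ofReal r ≤ TL ε t w i →
      ‖Run7.h146.Met.pos (w i) r - z.1‖ ≤ 2 * t - r + 2 * ε * i := by
  intro i
  induction i with
  | zero =>
    intro _ r hr hrt
    have hrt' : r ≤ t := (ENNReal.ofReal_le_ofReal_iff ht).1 hrt
    rw [h.h0]
    have : Run7.h146.Met.pos z r - z.1 = r • z.2 := by
      simp [Run7.h146.Met.pos]
    rw [this, norm_smul, hz, Real.norm_of_nonneg hr]
    simp only [Nat.cast_zero, mul_zero, add_zero, mul_one]
    linarith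
  | succ i ih =>
    intro hi r hr hrt
    have hfin : ct ε (w i) (w (i + 1)) ≠ ⊤ := by
      have h1 : TL ε t w (0 + (i + 1)) ≤ TL ε t w 0 := h.tl_anti (i + 1) 0 (by omega)
      rw [Nat.zero_add] at h1
      exact ne_top_of_le_ne_top ENNReal.ofReal_ne_top h1
    obtain ⟨τ, hτ, hτ1, hτ2, -⟩ := (hCT d ε hε).2.2.1 (w i) (w (i + 1)) hfin
    have hrτ : r ≤ τ := by
      have : ENNReal.ofReal r ≤ ENNReal.ofReal τ := by
        rw [← hτ1]
        exact hrt
      exact (ENNReal.ofReal_le_ofReal_iff hτ).1 this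
    have h2 := ih (by omega) τ hτ (by
      rw [← hτ1]
      exact h.tl_succ i hi)
    have h3 : ‖Run7.h146.Met.pos (w (i + 1)) r - Run7.h146.Met.pos (w (i + 1)) τ‖ ≤ τ - r := by
      have : Run7.h146.Met.pos (w (i + 1)) r - Run7.h146.Met.pos (w (i + 1)) τ =
          (r - τ) • (w (i + 1)).2 := by
        simp only [Run7.h146.Met.pos, sub_smul]
        abel
      rw [this, norm_smul, hS _ (h.mem i (by omega)), Real.norm_eq_abs, mul_one, abs_sub_comm,
        abs_of_nonneg (by linarith)]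
    have h4 : ‖Run7.h146.Met.pos (w (i + 1)) τ - Run7.h146.Met.pos (w i) τ‖ ≤ 2 * ε := by
      rw [norm_sub_rev]
      exact hτ2
    have h5 : Run7.h146.Met.pos (w (i + 1)) r - z.1 =
        (Run7.h146.Met.pos (w (i + 1)) r - Run7.h146.Met.pos (w (i + 1)) τ) +
        (Run7.h146.Met.pos (w (i + 1)) τ - Run7.h146.Met.pos (w i) τ) +
        (Run7.h146.Met.pos (w i) τ - z.1) := by abel
    rw [h5]
    refine (norm_add₃_le).trans ?_
    push_cast
    linarith

lemma nch_ne_zero : ∀ (k : ℕ) (w : ℕ → X d) (s : ℝ≥0∞) (F : Finset (X d)),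
    (∀ i < k, w (i + 1) ∈ F) → (∀ i < k, ∀ j < k, w (i + 1) = w (j + 1) → i = j) →
    (0 < k → ct ε (w 0) (w 1) < s) → (∀ i < k, 0 < ct ε (w i) (w (i + 1))) →
    (∀ i, i + 1 < k → ct ε (w (i + 1)) (w (i + 2)) < ct ε (w i) (w (i + 1))) →
    nch ε k (w 0) s F ≠ 0 := by
  classical
  intro k
  induction k with
  | zero => intro w s F _ _ _ _ _; simp [nch]
  | succ k ih =>
    intro w s F h1 h2 h3 h4 h5 h0
    rw [nch, Finset.sum_eq_zero_iff] at h0
    have h6 := h0 (w 1) (h1 0 (by omega))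
    rw [if_pos ⟨h4 0 (by omega), h3 (by omega)⟩] at h6
    refine ih (fun i => w (i + 1)) (ct ε (w 0) (w 1)) (del (w 1) F) ?_ ?_ ?_ ?_ ?_ h6
    · intro i hi
      refine mem_del.2 ⟨fun h => ?_, h1 (i + 1) (by omega)⟩
      have := h2 (i + 1) (by omega) 0 (by omega) h
      omega
    · intro i hi j hj h
      have := h2 (i + 1) (by omega) (j + 1) (by omega) h
      omega
    · intro hk
      exact h5 0 (by omega)
    · intro i hi
      exact h4 (i + 1) (by omega)
    · intro i hi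
      exact h5 (i + 1) (by omega)

lemma Pa.lt_k {t : ℝ} {S : Finset (X d)} {z : X d} {n k : ℕ}
    {w : ℕ → X d} (h : Pa ε t S z n w) (ht : 0 ≤ t)
    (hk : nch ε k z (ENNReal.ofReal (t + 1)) S = 0) (hn : 0 < n → 0 < TL ε t w n) : n < k := by
  by_contra hkn
  push Not at hkn
  refine nch_ne_zero k w (ENNReal.ofReal (t + 1)) S (fun i hi => h.mem i (by omega)) ?_ ?_ ?_ ?_
    (by rw [h.h0]; exact hk)
  · intro i hi j hj hij
    have := h.inj (i + 1) (by omega) (j + 1) (by omega) hij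
    omega
  · intro hk0
    refine lt_of_le_of_lt (h.fst (by omega)) ?_
    exact (ENNReal.ofReal_lt_ofReal_iff (by linarith)).2 (by linarith)
  · intro i hi
    have h1 := h.tl_anti (n - (i + 1)) (i + 1) (by omega)
    have h2 : i + 1 + (n - (i + 1)) = n := by omega
    rw [h2] at h1
    exact lt_of_lt_of_le (hn (by omega)) h1
  · intro i hi
    exact h.dec i (by omega)

lemma Pa.step {t : ℝ} {S : Finset (X d)} {z : X d} {n : ℕ}
    {w : ℕ → X d} (h : Pa ε t S z n w) {y : X d} (hy : y = z ∨ y ∈ S) {s : ℝ≥0∞}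
    (hs0 : n = 0 → s ≤ ENNReal.ofReal t) (hs1 : 0 < n → s < TL ε t w n)
    (hc : ct ε (w n) y ≤ s) :
    ∃ m w', Pa ε t S z m w' ∧ w' m = y ∧ ct ε (w n) y ≤ TL ε t w' m := by
  have hsT : s ≤ TL ε t w n := by
    rcases Nat.eq_zero_or_pos n with h0 | h0
    · subst h0
      exact hs0 rfl
    · exact (hs1 h0).le
  by_cases hex : ∃ m ≤ n, w m = y
  · obtain ⟨m, hm, hmy⟩ := hex
    refine ⟨m, w, ⟨h.h0, fun i hi => h.mem i (by omega),
      fun i hi j hj hij => h.inj i (by omega) j (by omega) hij, fun h0 => h.fst (by omega),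
      fun i hi => h.dec i (by omega)⟩, hmy, ?_⟩
    have h1 := h.tl_anti (n - m) m (by omega)
    have h2 : m + (n - m) = n := by omega
    rw [h2] at h1
    exact hc.trans (hsT.trans h1)
  · push Not at hex
    set w' : ℕ → X d := Function.update w (n + 1) y with hw'
    have hw1 : ∀ i ≤ n, w' i = w i := by
      intro i hi
      rw [hw', Function.update_of_ne (by omega)]
    have hw2 : w' (n + 1) = y := by rw [hw', Function.update_self]
    refine ⟨n + 1, w', ⟨?_, ?_, ?_, ?_, ?_⟩, hw2, ?_⟩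
    · rw [hw1 0 (by omega)]
      exact h.h0
    · intro i hi
      rcases Nat.lt_succ_iff_lt_or_eq.1 hi with h1 | h1
      · rw [hw1 (i + 1) (by omega)]
        exact h.mem i h1
      · subst h1
        rw [hw2]
        rcases hy with h2 | h2
        · exact absurd (h.h0.trans h2.symm) (hex 0 (by omega))
        · exact h2
    · intro i hi j hj hij
      rcases Nat.lt_succ_iff_lt_or_eq.1 (Nat.lt_succ_of_le hi) with h1 | h1 <;>
        rcases Nat.lt_succ_iff_lt_or_eq.1 (Nat.lt_succ_of_le hj) with h2 | h2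
      · rw [hw1 i (by omega), hw1 j (by omega)] at hij
        exact h.inj i (by omega) j (by omega) hij
      · subst h2
        rw [hw1 i (by omega), hw2] at hij
        exact absurd hij (hex i (by omega))
      · subst h1
        rw [hw1 j (by omega), hw2] at hij
        exact absurd hij.symm (hex j (by omega))
      · omega
    · intro _
      rcases Nat.eq_zero_or_pos n with h0 | h0
      · subst h0
        rw [hw1 0 le_rfl, hw2]
        exact hc.trans (hs0 rfl)
      · rw [hw1 0 (by omega), hw1 1 (by omega)]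
        exact h.fst h0
    · intro i hi
      rcases Nat.lt_succ_iff_lt_or_eq.1 hi with h1 | h1
      · rw [hw1 i (by omega), hw1 (i + 1) (by omega), hw1 (i + 2) (by omega)]
        exact h.dec i h1
      · subst h1
        rw [hw1 i (by omega), hw1 (i + 1) (by omega), hw2]
        exact lt_of_le_of_lt hc (hs1 (by omega))
    · change ct ε (w n) y ≤ ct ε (w' n) (w' (n + 1))
      rw [hw1 n le_rfl, hw2]

lemma locd_main (hCT : S_CT) (hD : S_DYN) (hε : 0 < ε) (S S' : Finset (X d)) (z : X d) (t : ℝ)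
    (k : ℕ) (ht : 0 ≤ t) (hz : ‖z.2‖ = 1) (hS : ∀ y ∈ S, ‖y.2‖ = 1)
    (hS' : ∀ y ∈ S', ‖y.2‖ = 1)
    (hk : nch ε k z (ENNReal.ofReal (t + 1)) S = 0)
    (hag : ∀ y : X d, ‖y.1 - z.1‖ ≤ 2 * (t + 1) + 2 * ε * (k + 1) → (y ∈ S ↔ y ∈ S'))
    (U : Finset (X d)) (hU : ∀ y, y = z ∨ y ∈ S ∨ y ∈ S' → y ∈ U) :
    ∀ (N n : ℕ) (w : ℕ → X d) (s : ℝ≥0∞), Pa ε t S z n w → (n = 0 → s ≤ ENNReal.ofReal t) →
      (0 < n → s < TL ε t w n) → ((U ×ˢ U).filter fun p => ct ε p.1 p.2 ≤ s).card ≤ N →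
      (dt ε (ins z S) (w n) ≤ s ↔ dt ε (ins z S') (w n) ≤ s) := by
  classical
  -- the inductive step
  have key : ∀ (n : ℕ) (w : ℕ → X d) (s : ℝ≥0∞), Pa ε t S z n w →
      (n = 0 → s ≤ ENNReal.ofReal t) → (0 < n → s < TL ε t w n) →
      (∀ (m : ℕ) (w' : ℕ → X d) (s' : ℝ≥0∞), Pa ε t S z m w' → (m = 0 → s' ≤ ENNReal.ofReal t) →
        (0 < m → s' < TL ε t w' m) → (∃ y ∈ U, ct ε (w n) y ≤ s ∧ s' < ct ε (w n) y) →
        (dt ε (ins z S) (w' m) ≤ s' ↔ dt ε (ins z S') (w' m) ≤ s')) →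
      (dt ε (ins z S) (w n) ≤ s ↔ dt ε (ins z S') (w n) ≤ s) := by
    intro n w s hP h0 h1 IH
    have hsT : s ≤ TL ε t w n := by
      rcases Nat.eq_zero_or_pos n with h | h
      · subst h
        exact h0 rfl
      · exact (h1 h).le
    have hTt : TL ε t w n ≤ ENNReal.ofReal t := by
      have := hP.tl_anti n 0 (by omega)
      rw [Nat.zero_add] at this
      exact this
    have hs : s ≠ ⊤ := ne_top_of_le_ne_top ENNReal.ofReal_ne_top (hsT.trans hTt)
    have hnk : n < k := hP.lt_k ht hk (fun h => lt_of_le_of_lt bot_le (h1 h))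
    have hnk' : (n : ℝ) + 1 ≤ k := by exact_mod_cast hnk
    -- membership
    have hbd : ∀ r, 0 ≤ r → ENNReal.ofReal r ≤ TL ε t w n →
        ‖Run7.h146.Met.pos (w n) r - z.1‖ ≤ 2 * t - r + 2 * ε * n :=
      hP.pos hCT hε ht hz hS n le_rfl
    have hpos0 : ‖(w n).1 - z.1‖ ≤ 2 * t + 2 * ε * n := by
      have h2 := hbd 0 le_rfl (by simp)
      simpa [Run7.h146.Met.pos] using h2
    have hxS : w n = z ∨ w n ∈ S := by
      rcases n with _ | n
      · exact Or.inl hP.h0
      · exact Or.inr (hP.mem n (by omega))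
    have hx : w n ∈ ins z S := mem_ins.2 hxS
    have hx' : w n ∈ ins z S' := by
      rw [mem_ins]
      rcases hxS with h2 | h2
      · exact Or.inl h2
      · refine Or.inr ((hag _ ?_).1 h2)
        nlinarith
    rw [dt_le_iff hCT hD hε hx hs, dt_le_iff hCT hD hε hx' hs]
    have hmem : ∀ y, ct ε (w n) y ≤ s → (y ∈ ins z S ↔ y ∈ ins z S') := by
      intro y hy
      have hfin : ct ε (w n) y ≠ ⊤ := ne_top_of_le_ne_top hs hy
      obtain ⟨τ, hτ, hτ1, hτ2, -⟩ := (hCT d ε hε).2.2.1 (w n) y hfin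
      rw [mem_ins, mem_ins]
      by_cases hyz : y = z
      · simp [hyz]
      by_cases hyu : ‖y.2‖ = 1
      · have h2 := hbd τ hτ (by rw [← hτ1]; exact hy.trans hsT)
        have h3 : y.1 - z.1 = (Run7.h146.Met.pos (w n) τ - z.1) -
            (Run7.h146.Met.pos (w n) τ - Run7.h146.Met.pos y τ) - τ • y.2 := by
          simp only [Run7.h146.Met.pos]
          abel
        have h4 : ‖y.1 - z.1‖ ≤ 2 * (t + 1) + 2 * ε * (k + 1) := by
          rw [h3]
          refine (norm_sub_le _ _).trans ?_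
          refine (add_le_add_left (norm_sub_le _ _) _).trans ?_
          rw [norm_smul, hyu, Real.norm_of_nonneg hτ, mul_one]
          nlinarith
        rw [hag y h4]
      · have h5 : y ∉ S := fun h => hyu (hS y h)
        have h6 : y ∉ S' := fun h => hyu (hS' y h)
        simp [h5, h6]
    have hlt : ∀ y, y ∈ ins z S → ct ε (w n) y ≤ s →
        (ct ε (w n) y ≤ dt ε (ins z S) y ↔ ct ε (w n) y ≤ dt ε (ins z S') y) := by
      intro y hy hys
      rw [← not_lt, ← not_lt, not_iff_not]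
      obtain ⟨m, w', hP', hw', hcT⟩ := hP.step (mem_ins.1 hy) h0 h1 hys
      have hyU : y ∈ U := hU y (by rcases mem_ins.1 hy with h | h <;> simp [h])
      have hIH : ∀ s', s' < ct ε (w n) y →
          (dt ε (ins z S) y ≤ s' ↔ dt ε (ins z S') y ≤ s') := by
        intro s' hs'
        have := IH m w' s' hP' (fun h => ?_) (fun h => lt_of_lt_of_le hs' hcT) ⟨y, hyU, hys, hs'⟩
        · rw [hw'] at this
          exact this
        · exact hs'.le.trans (hys.trans (hsT.trans hTt))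
      constructor
      · intro h
        exact lt_of_le_of_lt ((hIH _ h).1 le_rfl) h
      · intro h
        exact lt_of_le_of_lt ((hIH _ h).2 le_rfl) h
    constructor
    · rintro ⟨y, hy, hyx, h2, h3⟩
      exact ⟨y, (hmem y h2).1 hy, hyx, h2, (hlt y hy h2).1 h3⟩
    · rintro ⟨y, hy, hyx, h2, h3⟩
      have hy' := (hmem y h2).2 hy
      exact ⟨y, hy', hyx, h2, (hlt y hy' h2).2 h3⟩
  have hwU : ∀ (n : ℕ) (w : ℕ → X d), Pa ε t S z n w → w n ∈ U := by
    intro n w hP
    apply hU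
    rcases n with _ | n
    · exact Or.inl hP.h0
    · exact Or.inr (Or.inl (hP.mem n (by omega)))
  intro N
  induction N with
  | zero =>
    intro n w s hP h0 h1 hN
    refine key n w s hP h0 h1 ?_
    rintro m w' s' _ _ _ ⟨y, hy, hy1, -⟩
    exfalso
    have : (w n, y) ∈ (U ×ˢ U).filter fun p => ct ε p.1 p.2 ≤ s :=
      Finset.mem_filter.2 ⟨Finset.mem_product.2 ⟨hwU n w hP, hy⟩, hy1⟩
    rw [Finset.card_eq_zero.1 (Nat.le_zero.1 hN)] at this
    exact absurd this (Finset.notMem_empty _)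
  | succ N ih =>
    intro n w s hP h0 h1 hN
    refine key n w s hP h0 h1 ?_
    rintro m w' s' h2 h3 h4 ⟨y, hy, hy1, hy2⟩
    refine ih m w' s' h2 h3 h4 ?_
    refine Nat.le_of_lt_succ (lt_of_lt_of_le (Finset.card_lt_card ?_) hN)
    rw [Finset.ssubset_iff_of_subset]
    · refine ⟨(w n, y), Finset.mem_filter.2 ⟨Finset.mem_product.2 ⟨hwU n w hP, hy⟩, hy1⟩, ?_⟩
      intro h
      exact absurd (Finset.mem_filter.1 h).2 (not_le.2 hy2)
    · intro p hp
      rw [Finset.mem_filter] at hp ⊢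
      exact ⟨hp.1, hp.2.trans (hy2.le.trans hy1)⟩

/-- Piece LOCD. -/
theorem t_LOCD : S_CT → S_DYN → S_LOCD := by
  classical
  intro hCT hD d ε hε S S' z t k ht hzS hzS' hz hS hS' hk hag
  have h := locd_main hCT hD hε S S' z t k ht hz hS hS' hk hag (insert z (S ∪ S'))
    (by intro y hy; simpa [Finset.mem_insert, Finset.mem_union] using hy) _ 0 (fun _ => z)
    (ENNReal.ofReal t) ⟨rfl, by omega, by omega, by omega, by omega⟩ (fun _ => le_rfl) (by omega)
    le_rfl
  unfold alive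
  rw [← not_le, ← not_le, not_iff_not]
  exact h

end Run7.h192.Met
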