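import Pool.Agent.Run7.h146.Met.I1

/-!
# Basic facts on removal times (project MP_dd21b1_pr of helper146; pieces LOCD, KIL)
-/

set_option autoImplicit false

open MeasureTheory Filter Topology ENNReal

namespace Run7.h192.Met

open Run7.h146.Met

variable {d : ℕ} {ε : ℝ}

lemma mem_del {α : Type*} {x z : α} {F : Finset α} : x ∈ del z F ↔ x ≠ z ∧ x ∈ F := by
  simp [del]

lemma mem_ins {α : Type*} {x z : α} {F : Finset α} : x ∈ ins z F ↔ x = z ∨ x ∈ F := by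
  simp [ins]

lemma ct_symm (hCT : S_CT) (hε : 0 < ε) (z y : X d) : ct ε z y = ct ε y z :=
  (hCT d ε hε).2.1 z y

/-- the removal time is attained -/
lemma dt_att (hCT : S_CT) (hD : S_DYN) (hε : 0 < ε) {S : Finset (X d)} {x : X d} (hx : x ∈ S)
    (h : dt ε S x ≠ ⊤) :
    ∃ y ∈ S, y ≠ x ∧ ct ε x y = dt ε S x ∧ dt ε S y = dt ε S x := by
  classical
  have h1 := (hD d ε S).1 x hx
  set F : Finset (X d) := S.filter fun y => y ≠ x ∧ ct ε x y ≤ dt ε S y with hF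
  have h2 : dt ε S x = F.inf (fun y => ct ε x y) := by
    rw [h1, Finset.inf_eq_iInf]
    refine iInf_congr fun y => ?_
    have : (y ∈ S ∧ y ≠ x ∧ ct ε x y ≤ dt ε S y) = (y ∈ F) := by
      rw [hF, Finset.mem_filter]
    rw [this]
  have hne : F.Nonempty := by
    rcases F.eq_empty_or_nonempty with h0 | h0
    · rw [h0, Finset.inf_empty] at h2
      exact absurd h2 h
    · exact h0
  obtain ⟨y, hy, hy2⟩ := Finset.exists_mem_eq_inf F hne (fun y => ct ε x y)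
  rw [hF, Finset.mem_filter] at hy
  refine ⟨y, hy.1, hy.2.1, by rw [h2, hy2], ?_⟩
  have h3 : ct ε x y = dt ε S x := by rw [h2, hy2]
  apply le_antisymm
  · have h4 := (hD d ε S).1 y hy.1
    rw [h4]
    refine (iInf₂_le x ⟨hx, hy.2.1.symm, ?_⟩).trans ?_
    · rw [ct_symm hCT hε y x, h3]
    · rw [ct_symm hCT hε y x, h3]
  · rw [← h3]
    exact hy.2.2

lemma dt_le_ct (hD : S_DYN) {S : Finset (X d)} {x y : X d} (hx : x ∈ S) (hy : y ∈ S)
    (hxy : y ≠ x) (h : ct ε x y ≤ dt ε S y) : dt ε S x ≤ ct ε x y := by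
  rw [(hD d ε S).1 x hx]
  exact iInf₂_le y ⟨hy, hxy, h⟩

lemma dt_le_iff (hCT : S_CT) (hD : S_DYN) (hε : 0 < ε) {S : Finset (X d)} {x : X d} (hx : x ∈ S)
    {s : ℝ≥0∞} (hs : s ≠ ⊤) :
    dt ε S x ≤ s ↔ ∃ y ∈ S, y ≠ x ∧ ct ε x y ≤ s ∧ ct ε x y ≤ dt ε S y := by
  constructor
  · intro h
    obtain ⟨y, hy, hyx, h1, h2⟩ := dt_att hCT hD hε hx (ne_top_of_le_ne_top hs h)
    exact ⟨y, hy, hyx, h1 ▸ h, by rw [h1, h2]⟩
  · rintro ⟨y, hy, hyx, h1, h2⟩
    exact (dt_le_ct hD hx hy hyx h2).trans h1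

lemma dt_notMem (hD : S_DYN) {S : Finset (X d)} {x : X d} (hx : x ∉ S) : dt ε S x = 0 :=
  (hD d ε S).2.1 x hx

lemma mem_of_lt_dt (hD : S_DYN) {S : Finset (X d)} {x : X d} {s : ℝ≥0∞} (h : s < dt ε S x) :
    x ∈ S := by
  by_contra hx
  rw [dt_notMem hD hx] at h
  exact not_lt_bot h

end Run7.h192.Met
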